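import Mathlib

set_option autoImplicit false

/-!
# Flarbs of anchored subtrees: the amortized number of pointer changes is not bounded

For every `n ≥ 1` there is a sequence of `n` flarbs, starting from the empty tree, which changes at
least `n log₂ n - 2 n + 1` parent/left-child and parent/right-child relationships.  So the amortized
cost of a flarb is not `O(1)`; together with the known upper bound it is of order `log n`.

The sequence is built recursively.  Let `M(n)` be the number of left edges inside the sets `S'` in a
sequence which ends in a right path.  After `n` flarbs which lead to a right path with `n` nodes, the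
next `m ≤ n` flarbs repeat a sequence for `m` above this path, and in each of them one further left
edge, from a new node to an old node, is destroyed; so `M(n + m) ≥ M(n) + M(m) + m`.
-/

namespace Pool.Agent.Results.MP_5c307f_lc.LogLowerBound

open Finset

/-- Finite binary trees whose nodes carry labels in `ℕ`. -/
inductive BT : Type
  | nil : BT
  | node (l : BT) (x : ℕ) (r : BT) : BT

namespace BT

/-- The labels of the nodes in in-order. -/
def inorder : BT → List ℕ
  | nil => []
  | node l x r => inorder l ++ x :: inorder r

/-- The label of the root, if the tree is not empty. -/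
def root : BT → Option ℕ
  | nil => none
  | node _ x _ => some x

/-- The parent/child relationships: `(false, p, c)` if `c` is the left child of `p` and
`(true, p, c)` if `c` is the right child of `p`. -/
def rel : BT → Finset (Bool × ℕ × ℕ)
  | nil => ∅
  | node l x r =>
    ((l.root.elim ∅ fun c => {(false, x, c)}) ∪ (r.root.elim ∅ fun c => {(true, x, c)})) ∪
      (rel l ∪ rel r)

/-- `S` is an anchored subtree of `T`: a set of nodes of `T` which contains the root of `T`
(if `T` is not empty) and which is connected, i.e. contains with every node its parent. -/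
def Anchored (S : Finset ℕ) (T : BT) : Prop :=
  (∀ x ∈ S, x ∈ T.inorder) ∧ (∀ x, T.root = some x → x ∈ S) ∧
    ∀ b p c, (b, p, c) ∈ T.rel → c ∈ S → p ∈ S

/-- The nodes `x₁, ..., x_k` of the part of `T` which lies in the anchored subtree `S`, in in-order,
and the subtrees `h₀, ..., h_k` of `T` which hang off this part: the list of the `(h_(i-1), x_i)`,
and `h_k`; here `h_(i-1)` lies between `x_(i-1)` and `x_i` in in-order. -/
def cut (S : Finset ℕ) : BT → List (BT × ℕ) × BT
  | nil => ([], nil)
  | node l x r =>
    if x ∈ S then ((cut S l).1 ++ ((cut S l).2, x) :: (cut S r).1, (cut S r).2)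
    else ([], node l x r)

/-- The tree whose rightmost path is `x₁, ..., x_k` followed by the rightmost path of `g`, such that
`h_(i-1)` is the left subtree of `x_i`; the list is that of the `(h_(i-1), x_i)`. -/
def path : List (BT × ℕ) → BT → BT
  | [], g => g
  | (h, x) :: L, g => node h x (path L g)

/-- The flarb of the anchored subtree `S` of `T`, with new node `r`: `T'` has the root `r` with left
subtree `T` and no right child, and the nodes of `S ∪ {r}` are rearranged into a rightmost path; the
in-order and the subtrees hanging off `S ∪ {r}` are preserved. -/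
def flarb (T : BT) (S : Finset ℕ) (r : ℕ) : BT :=
  path (cut (insert r S) (node T r nil)).1 (cut (insert r S) (node T r nil)).2

/-- The number of parent/left-child and parent/right-child relationships which change. -/
def changes (T T' : BT) : ℕ := (symmDiff T.rel T'.rel).card

/-- `T 0, ..., T n` is a sequence of `n` flarbs of anchored subtrees `S i` of `T i`, starting from
the empty tree; the node added by the flarb which leads to `T (i + 1)` is called `i`. -/
def IsFlarbSequence (n : ℕ) (T : ℕ → BT) (S : ℕ → Finset ℕ) : Prop :=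
  T 0 = nil ∧ ∀ i < n, Anchored (S i) (T i) ∧ T (i + 1) = flarb (T i) (S i) i

end BT

open BT

/-! ### Cuts -/

/-- `T` is cut along an anchored subtree with `c` left edges. -/
inductive Cuts : BT → List (BT × ℕ) → BT → ℕ → Prop
  | none (T : BT) : Cuts T [] T 0
  | node {l r : BT} (x : ℕ) {L₁ L₂ : List (BT × ℕ)} {g₁ g₂ : BT} {c₁ c₂ : ℕ} :
      Cuts l L₁ g₁ c₁ → Cuts r L₂ g₂ c₂ →
      Cuts (BT.node l x r) (L₁ ++ (g₁, x) :: L₂) g₂ (c₁ + c₂ + if L₁ = [] then 0 else 1)

theorem Cuts.labels {T : BT} {L : List (BT × ℕ)} {g : BT} {c : ℕ} (h : Cuts T L g c) :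
    ∀ y ∈ L.map Prod.snd, y ∈ T.inorder := by
  induction h with
  | none T => intro y hy; simp at hy
  | node x h₁ h₂ ih₁ ih₂ =>
    intro y hy
    simp only [List.map_append, List.map_cons, List.mem_append, List.mem_cons] at hy
    simp only [BT.inorder, List.mem_append, List.mem_cons]
    rcases hy with hy | hy | hy
    · exact Or.inl (ih₁ y hy)
    · exact Or.inr (Or.inl hy)
    · exact Or.inr (Or.inr (ih₂ y hy))

theorem rel_mem {T : BT} : ∀ {b : Bool} {p c : ℕ}, (b, p, c) ∈ T.rel →
    p ∈ T.inorder ∧ c ∈ T.inorder := by
  induction T with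
  | nil => intro b p c h; simp [BT.rel] at h
  | node l x r ihl ihr =>
    intro b p c h
    simp only [BT.rel, mem_union] at h
    simp only [BT.inorder, List.mem_append, List.mem_cons]
    rcases h with (h | h) | (h | h)
    · cases l with
      | nil => simp [BT.root] at h
      | node l1 y l2 =>
        simp only [BT.root, Option.elim, mem_singleton, Prod.mk.injEq] at h
        obtain ⟨_, hp, hc⟩ := h
        subst hp hc
        simp [BT.inorder]
    · cases r with
      | nil => simp [BT.root] at h
      | node l1 y l2 =>
        simp only [BT.root, Option.elim, mem_singleton, Prod.mk.injEq] at h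
        obtain ⟨_, hp, hc⟩ := h
        subst hp hc
        simp [BT.inorder]
    · have := ihl h
      exact ⟨Or.inl this.1, Or.inl this.2⟩
    · have := ihr h
      exact ⟨Or.inr (Or.inr this.1), Or.inr (Or.inr this.2)⟩

theorem cuts_cut {T : BT} {L : List (BT × ℕ)} {g : BT} {c : ℕ} (h : Cuts T L g c) :
    ∀ S : Finset ℕ, T.inorder.Nodup → (∀ x ∈ T.inorder, x ∈ S ↔ x ∈ L.map Prod.snd) →
      cut S T = (L, g) := by
  induction h with
  | none T =>
    intro S _ hS
    cases T with
    | nil => rfl
    | node l x r =>
      have : x ∉ S := by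
        rw [hS x (by simp [BT.inorder])]
        simp
      simp [cut, this]
  | @node l r x L₁ L₂ g₁ g₂ c₁ c₂ h₁ h₂ ih₁ ih₂ =>
    intro S hn hS
    have hx : x ∈ S := by
      rw [hS x (by simp [BT.inorder])]
      simp
    simp only [BT.inorder, List.nodup_append, List.nodup_cons, List.mem_cons] at hn
    obtain ⟨hn1, ⟨hxr, hn2⟩, hd⟩ := hn
    have e1 : cut S l = (L₁, g₁) := by
      refine ih₁ S hn1 fun y hy => ?_
      rw [hS y (by simp [BT.inorder, hy])]
      simp only [List.map_append, List.map_cons, List.mem_append, List.mem_cons]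
      constructor
      · rintro (h | h | h)
        · exact h
        · exact absurd h (hd y hy x (Or.inl rfl))
        · exact absurd rfl (hd y hy y (Or.inr (h₂.labels y h)))
      · exact Or.inl
    have e2 : cut S r = (L₂, g₂) := by
      refine ih₂ S hn2 fun y hy => ?_
      rw [hS y (by simp [BT.inorder, hy])]
      simp only [List.map_append, List.map_cons, List.mem_append, List.mem_cons]
      constructor
      · rintro (h | h | h)
        · exact absurd rfl (hd y (h₁.labels y h) y (Or.inr hy))
        · subst h; exact absurd hy hxr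
        · exact h
      · exact fun h => Or.inr (Or.inr h)
    simp [cut, hx, e1, e2]

theorem cuts_anchored {T : BT} {L : List (BT × ℕ)} {g : BT} {c : ℕ} (h : Cuts T L g c)
    (hn : T.inorder.Nodup) (hL : T = nil ∨ L ≠ []) : Anchored (L.map Prod.snd).toFinset T := by
  refine ⟨fun x hx => h.labels x (by simpa using hx), ?_, ?_⟩
  · intro x hx
    cases h with
    | none T =>
      rcases hL with rfl | hL
      · simp [BT.root] at hx
      · exact absurd rfl hL
    | node y h₁ h₂ =>
      simp only [BT.root, Option.some.injEq] at hx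
      subst hx
      simp
  · clear hL
    induction h with
    | none T => intro b p c _ hc; simp at hc
    | @node l r x L₁ L₂ g₁ g₂ c₁ c₂ h₁ h₂ ih₁ ih₂ =>
      intro b p q hr hq
      simp only [BT.inorder, List.nodup_append, List.nodup_cons, List.mem_cons] at hn
      obtain ⟨hn1, ⟨hxr, hn2⟩, hd⟩ := hn
      simp only [List.map_append, List.map_cons, List.toFinset_append, List.toFinset_cons,
        mem_union, mem_insert, List.mem_toFinset] at hq ⊢
      simp only [BT.rel, mem_union] at hr
      rcases hr with (hr | hr) | (hr | hr)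
      · cases l with
        | nil => simp [BT.root] at hr
        | node l1 y l2 =>
          simp only [BT.root, Option.elim, mem_singleton, Prod.mk.injEq] at hr
          exact Or.inr (Or.inl hr.2.1)
      · cases r with
        | nil => simp [BT.root] at hr
        | node l1 y l2 =>
          simp only [BT.root, Option.elim, mem_singleton, Prod.mk.injEq] at hr
          exact Or.inr (Or.inl hr.2.1)
      · left
        have hm := rel_mem hr
        have := ih₁ hn1 b p q hr
        simp only [List.mem_toFinset] at this
        apply this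
        rcases hq with h | h | h
        · exact h
        · exact absurd h (hd q hm.2 x (Or.inl rfl))
        · exact absurd rfl (hd q hm.2 q (Or.inr (h₂.labels q h)))
      · right; right
        have hm := rel_mem hr
        have := ih₂ hn2 b p q hr
        simp only [List.mem_toFinset] at this
        apply this
        rcases hq with h | h | h
        · exact absurd rfl (hd q (h₁.labels q h) q (Or.inr hm.2))
        · subst h; exact absurd hm.2 hxr
        · exact h

/-- In-order of a list of subtrees and nodes. -/
def flat (L : List (BT × ℕ)) : List ℕ := L.flatMap fun p => p.1.inorder ++ [p.2]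

theorem inorder_path (L : List (BT × ℕ)) (g : BT) :
    (path L g).inorder = flat L ++ g.inorder := by
  induction L with
  | nil => simp [path, flat]
  | cons p L ih =>
    obtain ⟨h, x⟩ := p
    simp only [path, BT.inorder, ih, flat, List.flatMap_cons]
    simp

theorem Cuts.inorder_eq {T : BT} {L : List (BT × ℕ)} {g : BT} {c : ℕ} (h : Cuts T L g c) :
    T.inorder = flat L ++ g.inorder := by
  induction h with
  | none T => simp [flat]
  | node x h₁ h₂ ih₁ ih₂ =>
    simp only [BT.inorder, ih₁, ih₂, flat, List.flatMap_append, List.flatMap_cons]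
    simp

theorem card_rel {T : BT} (hT : T ≠ nil) (hn : T.inorder.Nodup) :
    T.rel.card + 1 = T.inorder.length := by
  induction T with
  | nil => exact absurd rfl hT
  | node l x r ihl ihr =>
    simp only [BT.inorder, List.nodup_append, List.nodup_cons, List.mem_cons] at hn
    obtain ⟨hn1, ⟨hxr, hn2⟩, hd⟩ := hn
    have hxl : x ∉ l.inorder := fun h => hd x h x (Or.inl rfl) rfl
    have e : (BT.node l x r).rel.card =
        (l.root.elim ∅ fun c => ({(false, x, c)} : Finset (Bool × ℕ × ℕ))).card +
        (r.root.elim ∅ fun c => ({(true, x, c)} : Finset (Bool × ℕ × ℕ))).card +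
        (l.rel.card + r.rel.card) := by
      simp only [BT.rel]
      rw [card_union_of_disjoint, card_union_of_disjoint, card_union_of_disjoint]
      · rw [disjoint_left]
        rintro ⟨b, p, q⟩ h1 h2
        exact hd p (rel_mem h1).1 p (Or.inr (rel_mem h2).1) rfl
      · rw [disjoint_left]
        rintro ⟨b, p, q⟩ h1 h2
        cases hl : l.root with
        | none => simp [hl] at h1
        | some y =>
          cases hr : r.root with
          | none => simp [hr] at h2
          | some z =>
            simp only [hl, hr, Option.elim, mem_singleton, Prod.mk.injEq] at h1 h2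
            rw [h1.1] at h2
            simp at h2
      · rw [disjoint_left]
        rintro ⟨b, p, q⟩ h1 h2
        have hp : p = x := by
          simp only [mem_union] at h1
          rcases h1 with h1 | h1
          · cases hl : l.root with
            | none => simp [hl] at h1
            | some y =>
              simp only [hl, Option.elim, mem_singleton, Prod.mk.injEq] at h1
              exact h1.2.1
          · cases hr : r.root with
            | none => simp [hr] at h1
            | some y =>
              simp only [hr, Option.elim, mem_singleton, Prod.mk.injEq] at h1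
              exact h1.2.1
        subst hp
        simp only [mem_union] at h2
        rcases h2 with h2 | h2
        · exact hxl (rel_mem h2).1
        · exact hxr (rel_mem h2).1
    rw [e]
    simp only [BT.inorder, List.length_append, List.length_cons]
    cases l with
    | nil =>
      cases r with
      | nil => simp [BT.root, BT.rel, BT.inorder]
      | node r1 y r2 =>
        have := ihr (by simp) hn2
        simp only [BT.root, BT.rel, BT.inorder, Option.elim, card_empty, card_singleton,
          List.length_nil] at this ⊢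
        omega
    | node l1 z l2 =>
      have h1 := ihl (by simp) hn1
      cases r with
      | nil =>
        simp only [BT.root, BT.rel, BT.inorder, Option.elim, card_empty, card_singleton,
          List.length_nil] at h1 ⊢
        omega
      | node r1 y r2 =>
        have h2 := ihr (by simp) hn2
        simp only [BT.root, Option.elim, card_singleton] at h1 h2 ⊢
        omega

theorem Cuts.root_mem {T : BT} {L : List (BT × ℕ)} {g : BT} {c : ℕ} (h : Cuts T L g c)
    (hL : L ≠ []) : ∃ y, T.root = some y ∧ y ∈ L.map Prod.snd := by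
  cases h with
  | none T => exact absurd rfl hL
  | node y h₁ h₂ => exact ⟨y, rfl, by simp⟩

theorem Cuts.leftEdges {T : BT} {L : List (BT × ℕ)} {g : BT} {c : ℕ} (h : Cuts T L g c)
    (hn : T.inorder.Nodup) : ∃ P : Finset (Bool × ℕ × ℕ), P ⊆ T.rel ∧ P.card = c ∧
      ∀ b p q, (b, p, q) ∈ P → b = false ∧ q ∈ L.map Prod.snd := by
  induction h with
  | none T => exact ⟨∅, by simp, by simp, by simp⟩
  | @node l r x L₁ L₂ g₁ g₂ c₁ c₂ h₁ h₂ ih₁ ih₂ =>
    simp only [BT.inorder, List.nodup_append, List.nodup_cons, List.mem_cons] at hn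
    obtain ⟨hn1, ⟨hxr, hn2⟩, hd⟩ := hn
    have hxl : x ∉ l.inorder := fun h => hd x h x (Or.inl rfl) rfl
    obtain ⟨P₁, hP₁, hc₁, hb₁⟩ := ih₁ hn1
    obtain ⟨P₂, hP₂, hc₂, hb₂⟩ := ih₂ hn2
    have hdis : Disjoint P₁ P₂ := by
      rw [disjoint_left]
      rintro ⟨b, p, q⟩ h1 h2
      exact hd p (rel_mem (hP₁ h1)).1 p (Or.inr (rel_mem (hP₂ h2)).1) rfl
    by_cases hL : L₁ = []
    · refine ⟨P₁ ∪ P₂, ?_, ?_, ?_⟩
      · simp only [BT.rel]
        exact (union_subset_union hP₁ hP₂).trans subset_union_right
      · rw [card_union_of_disjoint hdis, hc₁, hc₂, if_pos hL, add_zero]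
      · intro b p q h
        rw [mem_union] at h
        simp only [List.map_append, List.map_cons, List.mem_append, List.mem_cons]
        rcases h with h | h
        · exact ⟨(hb₁ b p q h).1, Or.inl (hb₁ b p q h).2⟩
        · exact ⟨(hb₂ b p q h).1, Or.inr (Or.inr (hb₂ b p q h).2)⟩
    · obtain ⟨y, hy, hyL⟩ := h₁.root_mem hL
      refine ⟨insert (false, x, y) (P₁ ∪ P₂), ?_, ?_, ?_⟩
      · simp only [BT.rel]
        rw [insert_subset_iff]
        constructor
        · simp [hy]
        · exact (union_subset_union hP₁ hP₂).trans subset_union_right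
      · rw [card_insert_of_notMem, card_union_of_disjoint hdis, hc₁, hc₂, if_neg hL]
        intro h
        rw [mem_union] at h
        rcases h with h | h
        · exact hxl (rel_mem (hP₁ h)).1
        · exact hxr (rel_mem (hP₂ h)).1
      · intro b p q h
        rw [mem_insert, mem_union] at h
        simp only [List.map_append, List.map_cons, List.mem_append, List.mem_cons]
        rcases h with h | h | h
        · simp only [Prod.mk.injEq] at h
          exact ⟨h.1, Or.inl (h.2.2 ▸ hyL)⟩
        · exact ⟨(hb₁ b p q h).1, Or.inl (hb₁ b p q h).2⟩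
        · exact ⟨(hb₂ b p q h).1, Or.inr (Or.inr (hb₂ b p q h).2)⟩

theorem not_left_child : ∀ (L : List (BT × ℕ)) (g : BT), (path L g).inorder.Nodup →
    ∀ p q, (false, p, q) ∈ (path L g).rel → q ∉ L.map Prod.snd := by
  intro L
  induction L with
  | nil => intro g _ p q _; simp
  | cons a L ih =>
    obtain ⟨h, x⟩ := a
    intro g hn p q hr hq
    simp only [path, BT.inorder, List.nodup_append, List.nodup_cons, List.mem_cons] at hn
    obtain ⟨hn1, ⟨hxr, hn2⟩, hd⟩ := hn
    have hsub : ∀ y ∈ L.map Prod.snd, y ∈ (path L g).inorder := by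
      intro y hy
      rw [inorder_path]
      simp only [List.mem_map] at hy
      obtain ⟨a, ha, rfl⟩ := hy
      simp only [List.mem_append, flat, List.mem_flatMap]
      exact Or.inl ⟨a, ha, by simp⟩
    have key : q ∈ h.inorder → False := by
      intro hqh
      simp only [List.map_cons, List.mem_cons] at hq
      rcases hq with hq | hq
      · exact hd q hqh x (Or.inl rfl) hq
      · exact hd q hqh q (Or.inr (hsub q hq)) rfl
    simp only [path, BT.rel, mem_union] at hr
    rcases hr with (hr | hr) | (hr | hr)
    · cases h with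
      | nil => simp [BT.root] at hr
      | node l1 y l2 =>
        simp only [BT.root, Option.elim, mem_singleton, Prod.mk.injEq] at hr
        apply key
        rw [hr.2.2]
        simp [BT.inorder]
    · cases hg : (path L g).root with
      | none => simp [hg] at hr
      | some y =>
        simp [hg] at hr
    · exact key (rel_mem hr).2
    · simp only [List.map_cons, List.mem_cons] at hq
      rcases hq with hq | hq
      · subst hq; exact hxr (rel_mem hr).2
      · exact ih g hn2 p q hr hq

theorem changes_ge {T : BT} {L : List (BT × ℕ)} {g : BT} {c r : ℕ} (h : Cuts T L g c)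
    (hn : T.inorder.Nodup) (hT : T ≠ nil) (hr : r ∉ T.inorder) :
    2 * c + 1 ≤ changes T (path L (node g r nil)) := by
  have e1 : (path L (node g r nil)).inorder = T.inorder ++ [r] := by
    rw [inorder_path, h.inorder_eq]
    simp [BT.inorder]
  have hn' : (path L (node g r nil)).inorder.Nodup := by
    rw [e1, List.nodup_append]
    refine ⟨hn, by simp, ?_⟩
    intro a ha b hb
    simp only [List.mem_singleton] at hb
    subst hb
    rintro rfl
    exact hr ha
  have hT' : path L (node g r nil) ≠ nil := by
    cases L with
    | nil => simp [path]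
    | cons a L => obtain ⟨a, b⟩ := a; simp [path]
  have c1 := card_rel hT hn
  have c2 := card_rel hT' hn'
  rw [e1, List.length_append, List.length_singleton] at c2
  obtain ⟨P, hP, hc, hb⟩ := h.leftEdges hn
  have hsub : P ⊆ T.rel \ (path L (node g r nil)).rel := by
    rintro ⟨b, p, q⟩ hp
    rw [mem_sdiff]
    refine ⟨hP hp, fun hp' => ?_⟩
    obtain ⟨rfl, hq⟩ := hb b p q hp
    exact not_left_child L _ hn' p q hp' hq
  have h1 := card_le_card hsub
  rw [hc] at h1
  have h2 : changes T (path L (node g r nil)) =
      (T.rel \ (path L (node g r nil)).rel).card + ((path L (node g r nil)).rel \ T.rel).card := by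
    unfold changes
    rw [symmDiff_def, sup_eq_union, card_union_of_disjoint]
    exact disjoint_sdiff_sdiff
  have h3 := card_sdiff_add_card_inter T.rel (path L (node g r nil)).rel
  have h4 := card_sdiff_add_card_inter (path L (node g r nil)).rel T.rel
  rw [inter_comm] at h4
  omega

/-! ### Runs -/

/-- A step with new node `r` and `c` left edges in `S'`. -/
def Step (T : BT) (r : ℕ) (T' : BT) (c : ℕ) : Prop :=
  ∃ (L : List (BT × ℕ)) (g : BT) (c' : ℕ), Cuts T L g c' ∧ (T = nil ∨ L ≠ []) ∧
    T' = path L (node g r nil) ∧ c = c' + if L = [] then 0 else 1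

/-- A sequence of `k` flarbs with new nodes `s, s + 1, ...` which starts from the empty tree and
leads to the tree in question, with total cost `c`. -/
inductive Run (s : ℕ) : ℕ → BT → ℕ → Prop
  | zero : Run s 0 nil 0
  | succ {k : ℕ} {U U' : BT} {c d : ℕ} : Run s k U c → Step U (s + k) U' d → Run s (k + 1) U' (c + d)

/-- The nodes of a list on a right path, followed by a tree. -/
def rpath : List ℕ → BT → BT
  | [], Y => Y
  | a :: A, Y => node nil a (rpath A Y)

theorem rpath_append (A B : List ℕ) (Y : BT) : rpath (A ++ B) Y = rpath A (rpath B Y) := by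
  induction A with
  | nil => rfl
  | cons a A ih => simp [rpath, ih]

/-- The nodes of a list inserted at the left of a tree. -/
inductive Ins : List ℕ → BT → BT → Prop
  | nil (U : BT) : Ins [] U U
  | cons {A : List ℕ} {U X : BT} (a : ℕ) : Ins A U X → Ins (a :: A) U (BT.node BT.nil a X)
  | left {A : List ℕ} {l X : BT} (b : ℕ) (r : BT) : Ins A l X →
      Ins A (BT.node l b r) (BT.node X b r)

theorem Ins.of_nil {A : List ℕ} {U Y : BT} (h : Ins A U Y) (hU : U = BT.nil) :
    Y = rpath A BT.nil := by
  induction h with
  | nil U => simp [rpath, hU]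
  | cons a h ih => simp [rpath, ih hU]
  | left b r h ih => simp at hU

theorem Ins.of_node {A : List ℕ} {U Y : BT} (h : Ins A U Y) : ∀ {l : BT} {b : ℕ} {r : BT},
    U = BT.node l b r → ∃ (B C : List ℕ) (Z : BT), A = B ++ C ∧
      Y = rpath B (BT.node Z b r) ∧ Ins C l Z := by
  induction h with
  | nil U => intro l b r hU; exact ⟨[], [], l, rfl, by simp [rpath, hU], Ins.nil l⟩
  | cons a h ih =>
    intro l b r hU
    obtain ⟨B, C, Z, h1, h2, h3⟩ := ih hU
    exact ⟨a :: B, C, Z, by simp [h1], by simp [rpath, h2], h3⟩
  | @left A l' X b' r' h ih =>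
    intro l b r hU
    simp only [BT.node.injEq] at hU
    obtain ⟨rfl, rfl, rfl⟩ := hU
    exact ⟨[], A, X, rfl, by simp [rpath], h⟩

theorem cuts_rpath {W : BT} {L : List (BT × ℕ)} {g : BT} {c : ℕ} (h : Cuts W L g c)
    (A : List ℕ) : Cuts (rpath A W) (A.map (fun a => (BT.nil, a)) ++ L) g c := by
  induction A with
  | nil => simpa [rpath] using h
  | cons a A ih =>
    have := Cuts.node a (Cuts.none BT.nil) ih
    simpa [rpath] using this

theorem path_rpath (A : List ℕ) (L : List (BT × ℕ)) (h : BT) :
    path (A.map (fun a => (BT.nil, a)) ++ L) h = rpath A (path L h) := by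
  induction A with
  | nil => rfl
  | cons a A ih => simp [path, rpath, ih]

/-- A node inserted in the first hanging subtree. -/
theorem replace {U : BT} {L₀ : List (BT × ℕ)} {g : BT} {c : ℕ} (h : Cuts U L₀ g c) :
    ∀ {g₀ : BT} {b : ℕ} {L : List (BT × ℕ)}, L₀ = (g₀, b) :: L → ∀ (a : ℕ) (Z : BT),
      ∃ W, Cuts W ((BT.nil, a) :: (Z, b) :: L) g (c + 1) ∧
        ∀ D, Ins D g₀ (BT.node BT.nil a Z) → Ins D U W := by
  induction h with
  | none T => intro g₀ b L h; simp at h
  | @node l r x L₁ L₂ g₁ g₂ c₁ c₂ h₁ h₂ ih₁ ih₂ =>
    intro g₀ b L hL a Z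
    cases L₁ with
    | nil =>
      simp only [List.nil_append, List.cons.injEq, Prod.mk.injEq] at hL
      obtain ⟨⟨rfl, rfl⟩, rfl⟩ := hL
      have hl : g₁ = l ∧ c₁ = 0 := by
        generalize hM : ([] : List (BT × ℕ)) = M at h₁
        cases h₁ with
        | none T => exact ⟨rfl, rfl⟩
        | node y h₁ h₂ => simp at hM
      obtain ⟨rfl, rfl⟩ := hl
      refine ⟨BT.node (BT.node BT.nil a Z) x r, ?_, fun D hD => Ins.left x r hD⟩
      have := Cuts.node x (Cuts.node a (Cuts.none BT.nil) (Cuts.none Z)) h₂
      simpa [add_comm] using this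
    | cons p L₁ =>
      simp only [List.cons_append, List.cons.injEq] at hL
      obtain ⟨rfl, rfl⟩ := hL
      obtain ⟨W, hW, hI⟩ := ih₁ rfl a Z
      refine ⟨BT.node W x r, ?_, fun D hD => Ins.left x r (hI D hD)⟩
      have := Cuts.node x hW h₂
      simp only [List.cons_append, reduceCtorEq, if_false] at this ⊢
      convert this using 1
      omega

/-- The backward step. -/
theorem step_back {U U' : BT} {r d : ℕ} (h : Step U r U' d) {A₁ A₂ : List ℕ} {Y : BT}
    (hA : A₁ ≠ []) (hY : Ins A₂ U' Y) : ∃ (B₁ B₂ : List ℕ) (X : BT), B₁ ++ B₂ = A₁ ++ A₂ ∧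
      A₁.length ≤ B₁.length + 1 ∧ Ins B₂ U X ∧ Step (rpath B₁ X) r (rpath A₁ Y) (d + 1) := by
  obtain ⟨L, g, c, hc, hL, rfl, rfl⟩ := h
  obtain ⟨A₀, a, hA0⟩ : ∃ A₀ a, A₁ = A₀ ++ [a] := by
    rcases List.eq_nil_or_concat A₁ with h | ⟨A₀, a, h⟩
    · exact absurd h hA
    · exact ⟨A₀, a, by simpa using h⟩
  cases L with
  | nil =>
    have hU : U = nil := by
      rcases hL with h | h
      · exact h
      · exact absurd rfl h
    subst hU
    have hg : g = nil ∧ c = 0 := by
      generalize hM : ([] : List (BT × ℕ)) = M at hc
      cases hc with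
      | none T => exact ⟨rfl, rfl⟩
    obtain ⟨rfl, rfl⟩ := hg
    obtain ⟨B, C, Z, h1, h2, h3⟩ := hY.of_node rfl
    have hZ := h3.of_nil rfl
    refine ⟨A₁ ++ B ++ C, [], nil, by simp [h1], by simp; omega, Ins.nil _, ?_⟩
    refine ⟨(A₁ ++ B).map (fun a => (BT.nil, a)) ++ [], rpath C nil, 0, ?_, ?_, ?_, ?_⟩
    · rw [rpath_append]
      exact cuts_rpath (Cuts.none _) _
    · right; simp [hA]
    · rw [path_rpath, rpath_append, h2, hZ]
      simp [path]
    · simp [hA]
  | cons p L =>
    obtain ⟨g₀, b⟩ := p
    simp only [path] at hY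
    obtain ⟨B, C, Z, h1, h2, h3⟩ := hY.of_node rfl
    obtain ⟨E, e, hE⟩ : ∃ E e, A₁ ++ B = E ++ [e] := by
      rcases List.eq_nil_or_concat (A₁ ++ B) with h | ⟨A₀, a, h⟩
      · simp [hA] at h
      · exact ⟨A₀, a, by simpa using h⟩
    obtain ⟨W, hW, hI⟩ := replace hc rfl e Z
    refine ⟨E, e :: C, W, ?_, ?_, hI _ (Ins.cons e h3), ?_⟩
    · rw [h1, ← List.append_assoc, hE]
      simp
    · have := congrArg List.length hE
      simp only [List.length_append, List.length_singleton] at this
      omega
    · refine ⟨E.map (fun a => (BT.nil, a)) ++ (BT.nil, e) :: (Z, b) :: L, g, c + 1,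
        cuts_rpath hW E, Or.inr (by simp), ?_, by simp⟩
      rw [path_rpath, h2, ← rpath_append, hE, rpath_append]
      simp [path, rpath]

theorem run_above {s n M : ℕ} {A : List ℕ} (hrun : Run s n (rpath A nil) M) {k : ℕ} {U : BT}
    {c : ℕ} (h : Run (s + n) k U c) : ∀ (A₁ A₂ : List ℕ) (Y : BT), A₁ ++ A₂ = A →
      k ≤ A₁.length → Ins A₂ U Y → Run s (n + k) (rpath A₁ Y) (M + c + k) := by
  induction h with
  | zero =>
    intro A₁ A₂ Y hA _ hY
    rw [hY.of_nil rfl, ← rpath_append, hA]
    exact hrun
  | @succ k U U' c d h hstep ih =>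
    intro A₁ A₂ Y hA hk hY
    have hA1 : A₁ ≠ [] := by
      rintro rfl
      simp at hk
    obtain ⟨B₁, B₂, X, hB, hlen, hX, hst⟩ := step_back hstep hA1 hY
    have := ih B₁ B₂ X (hB.trans hA) (by omega) hX
    have h2 := Run.succ this (by rw [← add_assoc]; exact hst)
    convert h2 using 1 <;> omega

theorem run_add {s n m M₁ M₂ : ℕ} (hmn : m ≤ n)
    (h₁ : Run s n (rpath (List.range' s n) nil) M₁)
    (h₂ : Run (s + n) m (rpath (List.range' (s + n) m) nil) M₂) :
    Run s (n + m) (rpath (List.range' s (n + m)) nil) (M₁ + M₂ + m) := by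
  have := run_above h₁ h₂ (List.range' s n) [] _ (by simp) (by simpa using hmn) (Ins.nil _)
  rwa [← rpath_append, List.range'_append_1] at this

theorem run_inorder {s k : ℕ} {U : BT} {c : ℕ} (h : Run s k U c) :
    U.inorder = List.range' s k := by
  induction h with
  | zero => rfl
  | @succ k U U' c d h hstep ih =>
    obtain ⟨L, g, c', hc, _, rfl, _⟩ := hstep
    rw [inorder_path, List.range'_concat, ← ih, hc.inorder_eq]
    simp [BT.inorder]

theorem run_seq {k : ℕ} {U : BT} {c : ℕ} (h : Run 0 k U c) :
    ∃ (T : ℕ → BT) (S : ℕ → Finset ℕ), IsFlarbSequence k T S ∧ T k = U ∧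
      2 * c ≤ k + ∑ i ∈ range k, changes (T i) (T (i + 1)) := by
  induction h with
  | zero => exact ⟨fun _ => nil, fun _ => ∅, ⟨rfl, by simp⟩, rfl, by simp⟩
  | @succ k U U' c d h hstep ih =>
    obtain ⟨T, S, ⟨hT0, hT⟩, hTk, hc⟩ := ih
    obtain ⟨L, g, c', hcut, hL, hU', hd⟩ := hstep
    have hin := run_inorder h
    rw [zero_add] at hU'
    have hn : U.inorder.Nodup := by rw [hin]; exact List.nodup_range'
    have hk : k ∉ U.inorder := by rw [hin]; simp [List.mem_range']
    refine ⟨fun i => if i ≤ k then T i else U',
      fun i => if i < k then S i else (L.map Prod.snd).toFinset, ⟨?_, ?_⟩, ?_, ?_⟩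
    · simp [hT0]
    · intro i hi
      rcases Nat.lt_succ_iff_lt_or_eq.mp hi with hi | rfl
      · simp only [hi, hi.le, Nat.succ_le_of_lt hi, if_true]
        exact hT i hi
      · simp only [le_refl, if_true, lt_irrefl, if_false, hTk, add_le_iff_nonpos_right,
          Nat.le_zero, one_ne_zero]
        refine ⟨cuts_anchored hcut hn hL, ?_⟩
        have hcut' : Cuts (node U i nil) (L ++ [(g, i)]) nil
            (c' + 0 + if L = [] then 0 else 1) := Cuts.node i hcut (Cuts.none nil)
        have hn2 : (node U i nil).inorder.Nodup := by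
          simp only [BT.inorder, List.nodup_append]
          refine ⟨hn, by simp, ?_⟩
          intro a ha b hb
          simp only [List.mem_singleton] at hb
          subst hb
          rintro rfl
          exact hk ha
        have := cuts_cut hcut' (insert i (L.map Prod.snd).toFinset) hn2 (by
          intro x _
          simp only [mem_insert, List.mem_toFinset, List.map_append, List.map_cons, List.map_nil,
            List.mem_append, List.mem_singleton]
          tauto)
        rw [flarb, this, hU']
        have hp : ∀ (L : List (BT × ℕ)), path (L ++ [(g, i)]) nil = path L (node g i nil) := by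
          intro L
          induction L with
          | nil => rfl
          | cons a L ih => obtain ⟨a, b⟩ := a; simp [path, ih]
        rw [hp]
    · simp
    · rw [sum_range_succ]
      have e1 : ∑ x ∈ range k, changes (if x ≤ k then T x else U')
          (if x + 1 ≤ k then T (x + 1) else U') = ∑ x ∈ range k, changes (T x) (T (x + 1)) := by
        refine sum_congr rfl fun x hx => ?_
        rw [mem_range] at hx
        rw [if_pos hx.le, if_pos (Nat.succ_le_of_lt hx)]
      have e2 : changes (if k ≤ k then T k else U') (if k + 1 ≤ k then T (k + 1) else U') =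
          changes U U' := by
        rw [if_pos le_rfl, if_neg (by omega), hTk]
      simp only at e1 e2 ⊢
      rw [e1, e2]
      by_cases hU : U = nil
      · subst hU
        have : L = [] ∧ c' = 0 := by
          generalize hM : BT.nil = M at hcut
          cases hcut with
          | none T => exact ⟨rfl, rfl⟩
          | node y h₁ h₂ => simp at hM
        obtain ⟨rfl, rfl⟩ := this
        simp only [if_true, add_zero] at hd
        omega
      · have := changes_ge hcut hn hU hk
        rw [← hU'] at this
        have hd' : d ≤ c' + 1 := by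
          rw [hd]
          split_ifs <;> omega
        omega

/-! ### The bound -/

theorem exists_run (n : ℕ) (hn : 1 ≤ n) : ∀ s : ℕ, ∃ c : ℕ,
    Run s n (rpath (List.range' s n) nil) c ∧
      (n : ℝ) * Real.logb 2 n / 2 - n / 2 + 1 / 2 ≤ c := by
  induction n using Nat.strong_induction_on with
  | _ n ih =>
    intro s
    rcases Nat.lt_or_ge n 2 with h | h
    · have h1 : n = 1 := by omega
      subst h1
      refine ⟨0 + 0, Run.succ Run.zero ⟨[], nil, 0, Cuts.none nil, Or.inl rfl, ?_, by simp⟩, ?_⟩
      · simp [path, rpath]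
      · simp
    · obtain ⟨m, hm⟩ : ∃ m, n = m + m ∨ n = m + 1 + m := by
        rcases Nat.even_or_odd' n with ⟨m, h | h⟩
        · exact ⟨m, Or.inl (by omega)⟩
        · exact ⟨m, Or.inr (by omega)⟩
      rcases hm with hm | hm
      · have hm1 : 1 ≤ m := by omega
        obtain ⟨c₁, hr₁, hc₁⟩ := ih m (by omega) hm1 s
        obtain ⟨c₂, hr₂, hc₂⟩ := ih m (by omega) hm1 (s + m)
        refine ⟨c₁ + c₂ + m, by rw [hm]; exact run_add le_rfl hr₁ hr₂, ?_⟩
        have hmR : (0 : ℝ) < m := by exact_mod_cast hm1
        have hlog : Real.logb 2 (n : ℝ) = 1 + Real.logb 2 m := by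
          rw [hm]
          push_cast
          rw [← two_mul, Real.logb_mul (by norm_num) hmR.ne', Real.logb_self_eq_one (by norm_num)]
        rw [hlog]
        have hnR : (n : ℝ) = m + m := by rw [hm]; push_cast; ring
        rw [hnR]
        push_cast
        linarith
      · have hm1 : 1 ≤ m := by omega
        obtain ⟨c₁, hr₁, hc₁⟩ := ih (m + 1) (by omega) (by omega) s
        obtain ⟨c₂, hr₂, hc₂⟩ := ih m (by omega) hm1 (s + (m + 1))
        refine ⟨c₁ + c₂ + m, by rw [hm]; exact run_add (by omega) hr₁ hr₂, ?_⟩
        have hmR : (0 : ℝ) < m := by exact_mod_cast hm1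
        have hnR : (n : ℝ) = 2 * m + 1 := by rw [hm]; push_cast; ring
        -- convexity of `x log x`
        have hconv := Real.convexOn_mul_log.2 (show (m : ℝ) + 1 ∈ Set.Ici (0 : ℝ) by
          simp only [Set.mem_Ici]; linarith) (show (m : ℝ) ∈ Set.Ici (0 : ℝ) by
          simp only [Set.mem_Ici]; linarith) (show (0 : ℝ) ≤ 1 / 2 by norm_num)
          (show (0 : ℝ) ≤ 1 / 2 by norm_num) (by norm_num)
        simp only [smul_eq_mul] at hconv
        have hmid : (1 / 2 : ℝ) * (m + 1) + 1 / 2 * m = n / 2 := by rw [hnR]; ring
        rw [hmid] at hconv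
        have hnpos : (0 : ℝ) < n := by rw [hnR]; linarith
        rw [Real.log_div hnpos.ne' (by norm_num)] at hconv
        have hl2 : 0 < Real.log 2 := Real.log_pos (by norm_num)
        have e1 : ∀ x : ℝ, Real.logb 2 x = Real.log x / Real.log 2 := fun x => rfl
        have hineq : (n : ℝ) * Real.logb 2 n - n ≤
            ((m : ℝ) + 1) * Real.logb 2 (m + 1) + m * Real.logb 2 m := by
          rw [e1, e1, e1]
          have : (n : ℝ) * (Real.log n / Real.log 2) - n =
              (n * (Real.log n - Real.log 2)) / Real.log 2 := by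
            field_simp
          rw [this, mul_div_assoc', mul_div_assoc', ← add_div]
          apply div_le_div_of_nonneg_right _ hl2.le
          linarith
        push_cast at hc₁
        rw [hnR] at hineq ⊢
        push_cast
        linarith

/-- For every `n ≥ 1` there is a sequence of `n` flarbs which starts from the empty tree and changes
at least `n log₂ n - 2 n + 1` parent/left-child and parent/right-child relationships.  In particular
there is no constant `C` such that the total cost of every sequence of `n` flarbs from the empty tree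
is at most `C n`. -/
theorem result :
    (∀ n : ℕ, 1 ≤ n → ∃ (T : ℕ → BT) (S : ℕ → Finset ℕ), IsFlarbSequence n T S ∧
      (n : ℝ) * Real.logb 2 n - 2 * n + 1 ≤ ∑ i ∈ range n, (changes (T i) (T (i + 1)) : ℝ)) ∧
    ¬ ∃ C : ℝ, ∀ (n : ℕ) (T : ℕ → BT) (S : ℕ → Finset ℕ), IsFlarbSequence n T S →
      ∑ i ∈ range n, (changes (T i) (T (i + 1)) : ℝ) ≤ C * n := by
  have main : ∀ n : ℕ, 1 ≤ n → ∃ (T : ℕ → BT) (S : ℕ → Finset ℕ), IsFlarbSequence n T S ∧
      (n : ℝ) * Real.logb 2 n - 2 * n + 1 ≤ ∑ i ∈ range n, (changes (T i) (T (i + 1)) : ℝ) := by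
    intro n hn
    obtain ⟨c, hrun, hc⟩ := exists_run n hn 0
    obtain ⟨T, S, hseq, _, hsum⟩ := run_seq hrun
    refine ⟨T, S, hseq, ?_⟩
    have h2 : (2 : ℝ) * c ≤ n + ∑ i ∈ range n, (changes (T i) (T (i + 1)) : ℝ) := by
      exact_mod_cast hsum
    linarith
  refine ⟨main, ?_⟩
  rintro ⟨C, hC⟩
  obtain ⟨k, hk⟩ := exists_nat_gt (C + 2)
  obtain ⟨T, S, hseq, hsum⟩ := main (2 ^ k) Nat.one_le_two_pow
  have h1 := hC (2 ^ k) T S hseq
  have h2 : Real.logb 2 ((2 ^ k : ℕ) : ℝ) = k := by
    push_cast
    rw [Real.logb_pow]
    simp
  rw [h2] at hsum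
  have h3 : (0 : ℝ) < ((2 ^ k : ℕ) : ℝ) := by positivity
  nlinarith

end Pool.Agent.Results.MP_5c307f_lc.LogLowerBound
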